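import Pool.Agent.Z705.Defs
import Pool.Agent.Z864.Bil2a

/-!
# Z705-BIL2A: weights and coincidences modulo 7, for numbers `m`
-/

set_option autoImplicit false

namespace Pool.Agent.Y394.Z705

open Finset Matrix
open Pool.Agent.Z700 (V3 vec cp cp7 hh fac pr chi3 chv Ln S_PC)
open Pool.Agent.Z701 (wt)
open Pool.Agent.Z705 (Ok Bt PairOK DD dm)
open Pool.Agent.Z864 (weight core core0 chv_neg mem_vec fact7)
open Pool.Agent.Z994 (dot3 sign_of)

theorem bt_ne {m : ℕ} {β : ZMod 7} (hm : Ok m) (h : Bt m β) : β ≠ 0 := by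
  rintro rfl
  unfold Bt at h
  have h1 : ((3 * m : ℕ) : ZMod 7) = 0 := by
    push_cast
    rw [zero_pow two_ne_zero] at h
    exact neg_eq_zero.1 h.symm
  rw [ZMod.natCast_eq_zero_iff] at h1
  obtain ⟨_, _, _, h7⟩ := hm
  omega

theorem bt_sq {m : ℕ} {β : ZMod 7} (h : Bt m β) : β ^ 2 = -((3 * m : ℕ) : ZMod 7) := by
  unfold Bt at h
  rw [h]
  push_cast
  ring

theorem not7 {m : ℕ} (hm : Ok m) : ¬ 7 ∣ 3 * m := by
  obtain ⟨_, _, _, h7⟩ := hm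
  omega

theorem sq3 {m : ℕ} (hm : Ok m) : Squarefree (3 * m) := by
  rw [Nat.squarefree_mul]
  · exact ⟨Nat.prime_three.squarefree, hm.1⟩
  · rw [Nat.Prime.coprime_iff_not_dvd Nat.prime_three]
    exact hm.2.2.1

open Classical in
/-- BIL2A -/
theorem t_BIL2A : Pool.Agent.Z705.S_BIL2A := by
  intro m1 m2 β1 β2 hOK b h3
  obtain ⟨g1, g2, t1, t2, -, -, hd, hne⟩ := hOK
  set N1 : ℤ := 3 * (m1 : ℤ) with hN1
  set N2 : ℤ := 3 * (m2 : ℤ) with hN2
  have hw : ∀ q ∈ (vec N1 ×ˢ vec N2).filter (fun q => q.1 ⬝ᵥ q.2 = b),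
      chv q.1 * chv q.2 = wt m1 m2 b := by
    intro q hq
    rw [mem_filter, mem_product] at hq
    exact weight g1.2.2.1 g2.2.2.1 h3 (mem_vec hq.1.1) (mem_vec hq.1.2) hq.2
  unfold DD Pool.Agent.Z700.DD
  by_cases hb : (b : ZMod 7) = -(β1 * β2)
  · rw [if_pos hb]
    have key := core (N1 := N1) (N2 := N2) (bt_ne g1 t1) (bt_ne g2 t2)
      (by rw [bt_sq t1, hN1]; push_cast; ring) (by rw [bt_sq t2, hN2]; push_cast; ring) hb
      (fun q => chv q.1 * chv q.2) (fun v w => by simp only [chv_neg]; ring)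
    have k1 : ∑ q ∈ (vec N1 ×ˢ vec N2).filter (fun q => q.1 ⬝ᵥ q.2 = b), chv q.1 * chv q.2 =
        wt m1 m2 b * (cp N1 b N2 : ℤ) := by
      rw [sum_congr rfl hw, sum_const, nsmul_eq_mul]
      unfold cp
      ring
    have k2 : ∑ q ∈ (vec N1 ×ˢ vec N2).filter (fun q => q.1 ⬝ᵥ q.2 = b ∧
        ∀ i, β2 * (q.1 i : ZMod 7) = β1 * (q.2 i : ZMod 7)), chv q.1 * chv q.2 =
        wt m1 m2 b * (cp7 N1 b N2 β1 β2 : ℤ) := by
      rw [sum_congr rfl (fun q hq => hw q (by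
        rw [mem_filter] at hq ⊢
        exact ⟨hq.1, hq.2.1⟩)), sum_const, nsmul_eq_mul]
      unfold cp7
      ring
    rw [k1, k2] at key
    rw [mul_add, ← key]
  · rw [if_neg hb]
    have key := core0 (N1 := N1) (N2 := N2) (β2 := β2) (bt_ne g1 t1) hb
    have : ∑ q ∈ (vec N1 ×ˢ vec N2).filter (fun q => q.1 ⬝ᵥ q.2 = b ∧
        ∃ n : Fin 3 → ZMod 7, n ≠ 0 ∧ Ln n β1 q.1 ∧ Ln n β2 q.2), chv q.1 * chv q.2 = 0 := by
      rw [key]
      rfl
    rw [this, mul_zero]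

end Pool.Agent.Y394.Z705
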