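import Pool.Agent.Y394.Z705.Bil2a
import Pool.Agent.Z864.Bil2b

/-!
# Z705-BIL2B: evaluation of `cp + cp7`, for numbers `m`
-/

set_option autoImplicit false

namespace Pool.Agent.Y394.Z705

open Finset Matrix
open Pool.Agent.Z700 (V3 vec cp cp7 hh fac pr chi3 chv Ln S_PC)
open Pool.Agent.Z701 (wt)
open Pool.Agent.Z705 (Ok Bt PairOK DD dm)
open Pool.Agent.Z864 (fact7)

theorem no_sq (m1 m2 : ℕ) (β1 β2 : ZMod 7) (h1 : Ok m1) (h2 : Ok m2) (t1 : Bt m1 β1)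
    (hd : Nat.Coprime m1 m2 ∨ (m1 = m2 ∧ β1 = β2)) (hne : 1 < m1 ∨ 1 < m2) (b : ℤ)
    (hb : b % 4 = 1) (hb7 : (b : ZMod 7) = -(β1 * β2)) :
    b ^ 2 ≠ 9 * (m1 : ℤ) * (m2 : ℤ) := by
  have := fact7
  intro hbb
  rcases hd with hd | hd
  · -- coprime
    have hsq : Squarefree (m1 * m2) := (Nat.squarefree_mul hd).2 ⟨h1.1, h2.1⟩
    have p1 : 0 < m1 := Nat.pos_of_ne_zero h1.1.ne_zero
    have p2 : 0 < m2 := Nat.pos_of_ne_zero h2.1.ne_zero
    have hlt : 1 < m1 * m2 := by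
      rcases hne with hne | hne
      · exact lt_of_lt_of_le hne (Nat.le_mul_of_pos_right m1 p2)
      · exact lt_of_lt_of_le hne (Nat.le_mul_of_pos_left m2 p1)
    have h3 : (b.natAbs) ^ 2 = 3 ^ 2 * (m1 * m2) := by
      have : ((b.natAbs ^ 2 : ℕ) : ℤ) = ((3 ^ 2 * (m1 * m2) : ℕ) : ℤ) := by
        push_cast
        rw [sq_abs, hbb]
        ring
      exact_mod_cast this
    have h4 : 3 ∣ b.natAbs := by
      have : 3 ∣ b.natAbs ^ 2 := by rw [h3]; exact Dvd.dvd.mul_right (by norm_num) _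
      exact Nat.prime_three.dvd_of_dvd_pow this
    obtain ⟨c, hc⟩ := h4
    rw [hc, mul_pow] at h3
    have h5 : c ^ 2 = m1 * m2 := Nat.eq_of_mul_eq_mul_left (by norm_num) h3
    rw [← h5] at hsq hlt
    have h6 : IsUnit c := hsq c (by rw [sq])
    rw [Nat.isUnit_iff] at h6
    rw [h6] at hlt
    norm_num at hlt
  · obtain ⟨rfl, rfl⟩ := hd
    have h3 : b ^ 2 = (3 * (m1 : ℤ)) ^ 2 := by rw [hbb]; ring
    have h4 := h1.2.1
    rcases sq_eq_sq_iff_eq_or_eq_neg.1 h3 with h5 | h5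
    · omega
    · have h6 : (b : ZMod 7) = β1 ^ 2 := by
        rw [h5, bt_sq t1]
        push_cast
        ring
      rw [h6] at hb7
      have h7 : (2 : ZMod 7) * β1 ^ 2 = 0 := by
        have : β1 ^ 2 + β1 * β1 = 0 := by
          rw [hb7]; ring
        linear_combination this
      rcases mul_eq_zero.1 h7 with h8 | h8
      · exact Pool.Agent.Z700.BIL2B.two_ne h8
      · exact bt_ne h1 t1 (pow_eq_zero_iff two_ne_zero |>.1 h8)

/-- BIL2B -/
theorem t_BIL2B (h : Pool.Agent.Z700.S_PC) : Pool.Agent.Z705.S_BIL2B := by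
  intro m1 m2 β1 β2 hOK b hb4 hb7
  obtain ⟨g1, g2, t1, t2, -, -, hd, hne⟩ := hOK
  have m1' := g1.2.1
  have m2' := g2.2.1
  by_cases hD : 0 < dm m1 m2 b
  · rw [if_pos hD]
    have hDD : (dm m1 m2 b : ℤ) = ((3 * m1 : ℕ) : ℤ) * ((3 * m2 : ℕ) : ℤ) - b ^ 2 := by
      unfold dm at hD ⊢
      rw [Int.toNat_of_nonneg (by omega)]
      push_cast
      ring
    have hbo : Odd b := by
      rw [Int.odd_iff]
      omega
    have key := Pool.Agent.Z700.BIL2B.main_pos h (3 * m1) (3 * m2) (dm m1 m2 b) b β1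
      β2 (sq3 g1)
      (by omega) (by omega) hbo hD hDD (bt_sq t1) (bt_sq t2) (bt_ne g1 t1) hb7
    rw [← key]
    push_cast
    rfl
  · rw [if_neg hD]
    have hle : 9 * (m1 : ℤ) * (m2 : ℤ) ≤ b ^ 2 := by
      unfold dm at hD
      omega
    have hlt : 9 * (m1 : ℤ) * (m2 : ℤ) < b ^ 2 :=
      lt_of_le_of_ne hle (no_sq m1 m2 β1 β2 g1 g2 t1 hd hne b hb4 hb7).symm
    have h0 : cp (3 * (m1 : ℤ)) b (3 * (m2 : ℤ)) = 0 := by
      apply Pool.Agent.Z700.BIL2B.cp_zero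
      linarith
    have h7 : cp7 (3 * (m1 : ℤ)) b (3 * (m2 : ℤ)) β1 β2 = 0 := by
      have := Pool.Agent.Z700.BIL2B.cp7_le (3 * (m1 : ℤ)) b (3 * (m2 : ℤ)) β1 β2
      omega
    rw [h0, h7]
    rfl

end Pool.Agent.Y394.Z705
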