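import Pool.Agent.Y394.Z705.Bil2a
import Pool.Agent.Z864.Can

/-!
# Z705-CAN: cancellation for `3 ∣ b`, `m1`, `m2` different modulo `3`
-/

set_option autoImplicit false

namespace Pool.Agent.Y394.Z705

open Finset
open scoped Matrix
open Pool.Agent.Z700 (V3 vec cp cp7 hh fac pr chi3 chv Ln S_PC)
open Pool.Agent.Z701 (wt)
open Pool.Agent.Z705 (Ok Bt PairOK DD dm)
open Pool.Agent.Z864 (core core0 chv_neg mem_vec fact7 sign3 card3 GG cp_gg cp7_gg sum_sign)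
open Pool.Agent.Z994 (dot3 sign_of)

/-! ### the sets -/

/-- the two counts are the same for both signs -/
theorem counts (h : S_PC) (m1 m2 : ℕ) (β1 β2 : ZMod 7) (g1 : Ok m1) (g2 : Ok m2) (t1 : Bt m1 β1) (b : ℤ) (hb4 : b % 4 = 1)
    (hb9 : (9 : ℤ) ∣ b) (h12 : (3 : ℤ) ∣ (m1 : ℤ) + m2) (hb7 : (b : ZMod 7) = -(β1 * β2))
    (s : ℤ) (hs : s = 1 ∨ s = -1) :
    ((((vec (3 * (m1 : ℤ)) ×ˢ vec (3 * (m2 : ℤ))).filter fun q => q.1 ⬝ᵥ q.2 = b ∧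
      (∀ i, (3 : ℤ) ∣ q.1 i - s * q.2 i) ∧ True).card : ℕ) : ℤ) =
        GG (3 * m1) ((m1 : ℤ) * m2 - (b / 3) ^ 2) ∧
    ((((vec (3 * (m1 : ℤ)) ×ˢ vec (3 * (m2 : ℤ))).filter fun q => q.1 ⬝ᵥ q.2 = b ∧
      (∀ i, (3 : ℤ) ∣ q.1 i - s * q.2 i) ∧
      ∀ i, β2 * (q.1 i : ZMod 7) = β1 * (q.2 i : ZMod 7)).card : ℕ) : ℤ) =
        if (49 : ℤ) ∣ (m1 : ℤ) * m2 - (b / 3) ^ 2 then
          GG (3 * m1) (((m1 : ℤ) * m2 - (b / 3) ^ 2) / 49) else 0 := by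
  have := fact7
  have hss : s * s = 1 := by rcases hs with rfl | rfl <;> norm_num
  have m8 := g1.2.1
  have m8' := g2.2.1
  obtain ⟨c, hc⟩ := hb9
  subst hc
  have hdiv : (9 * c) / 3 = 3 * c := by omega
  rw [hdiv]
  obtain ⟨t, ht⟩ : ∃ t, 16 * (m1 : ℤ) + m2 = 3 * t :=
    ⟨(16 * (m1 : ℤ) + m2) / 3, by omega⟩
  set b1 : ℤ := 4 * m1 - 3 * s * c with hb1
  set n3 : ℤ := t - 8 * s * c with hn3
  have e1 : 3 * b1 = 4 * (3 * (m1 : ℤ)) - s * (9 * c) := by rw [hb1]; ring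
  have e2 : 9 * n3 = 16 * (3 * (m1 : ℤ)) - 8 * s * (9 * c) + 3 * (m2 : ℤ) := by
    rw [hn3]
    linear_combination (-3) * ht
  have hDet : ((3 * m1 : ℕ) : ℤ) * n3 - b1 ^ 2 = (m1 : ℤ) * m2 - (3 * c) ^ 2 := by
    have : 9 * (((3 * m1 : ℕ) : ℤ) * n3 - b1 ^ 2) = 9 * ((m1 : ℤ) * m2 - (3 * c) ^ 2) := by
      have e3 : 9 * (((3 * m1 : ℕ) : ℤ) * n3 - b1 ^ 2) =
          3 * (m1 : ℤ) * (9 * n3) - (3 * b1) ^ 2 := by push_cast; ring
      rw [e3, e1, e2]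
      linear_combination (-81 * c ^ 2) * hss
    linarith
  have hn3m : n3 % 8 = 3 := by
    rw [hn3]
    have : 8 * s * c = 8 * (s * c) := by ring
    rw [this]
    omega
  have hodd : Odd b1 := by
    have hco : c % 2 = 1 := by omega
    rw [Int.odd_iff, hb1]
    rcases hs with rfl | rfl <;> omega
  have hne : ((3 * m1 : ℕ) : ℤ) * n3 - b1 ^ 2 ≠ 0 := by
    rw [hDet]
    intro h0
    have h3 : (3 : ℤ) ∣ (m1 : ℤ) * m2 := ⟨3 * c ^ 2, by linarith⟩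
    rcases Int.prime_three.dvd_or_dvd h3 with h4 | h4
    · exact g1.2.2.1 (by exact_mod_cast h4)
    · exact g2.2.2.1 (by exact_mod_cast h4)
  have hmod : (3 * m1) % 8 = 3 := by omega
  constructor
  · rw [card3 (3 * (m1 : ℤ)) (9 * c) (3 * (m2 : ℤ)) s b1 n3 hss e1 e2 (fun _ => True)
      (fun _ => True) (fun _ _ _ _ => Iff.rfl)]
    have e4 : ((vec (3 * (m1 : ℤ)) ×ˢ vec n3).filter fun q => q.1 ⬝ᵥ q.2 = b1 ∧ True).card =
        cp ((3 * m1 : ℕ) : ℤ) b1 n3 := by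
      unfold cp
      push_cast
      simp only [and_true]
    rw [e4, cp_gg h (sq3 g1) hmod hn3m hodd hne, hDet]
  · -- the multiplier
    have hβ := bt_ne g1 t1
    obtain ⟨κ, hκ⟩ : ∃ κ : ZMod 7, 3 * κ * β1 = 4 * β1 - s * β2 := by
      refine ⟨(4 * β1 - s * β2) / (3 * β1), ?_⟩
      have h3 : (3 : ZMod 7) ≠ 0 := Pool.Agent.Z700.BIL2B.three_ne
      field_simp
    have hsK : (s : ZMod 7) * s = 1 := by exact_mod_cast congrArg (Int.cast : ℤ → ZMod 7) hss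
    have hs0 : (s : ZMod 7) ≠ 0 := by
      intro h0
      rw [h0, mul_zero] at hsK
      exact zero_ne_one hsK
    rw [card3 (3 * (m1 : ℤ)) (9 * c) (3 * (m2 : ℤ)) s b1 n3 hss e1 e2
      (fun q => ∀ i, β2 * (q.1 i : ZMod 7) = β1 * (q.2 i : ZMod 7))
      (fun q => ∀ i, κ * (q.1 i : ZMod 7) = 1 * (q.2 i : ZMod 7)) (fun v w w' hw => by
        refine forall_congr' fun i => ?_
        have e5 : (3 : ZMod 7) * (w' i : ZMod 7) = 4 * v i - s * w i := by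
          exact_mod_cast congrArg (Int.cast : ℤ → ZMod 7) (hw i)
        simp only
        have e6 : 3 * β1 * (κ * (v i : ZMod 7) - 1 * (w' i : ZMod 7)) =
            (-(s : ZMod 7)) * (β2 * (v i : ZMod 7) - β1 * (w i : ZMod 7)) := by
          linear_combination (v i : ZMod 7) * hκ - β1 * e5
        have h3b : (3 : ZMod 7) * β1 ≠ 0 := mul_ne_zero Pool.Agent.Z700.BIL2B.three_ne hβ
        constructor
        · intro h5
          rw [sub_eq_zero.2 h5, mul_zero] at e6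
          exact sub_eq_zero.1 ((mul_eq_zero.1 e6).resolve_left h3b)
        · intro h5
          rw [sub_eq_zero.2 h5, mul_zero] at e6
          exact sub_eq_zero.1 ((mul_eq_zero.1 e6.symm).resolve_left (neg_ne_zero.2 hs0)))]
    have e4 : ((vec (3 * (m1 : ℤ)) ×ˢ vec n3).filter fun q => q.1 ⬝ᵥ q.2 = b1 ∧
        ∀ i, κ * (q.1 i : ZMod 7) = 1 * (q.2 i : ZMod 7)).card =
        cp7 ((3 * m1 : ℕ) : ℤ) b1 n3 1 κ := by
      unfold cp7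
      push_cast
      rfl
    rw [e4, cp7_gg h (sq3 g1) hmod hn3m hodd hne (not7 g1) κ ?_, hDet]
    -- the congruence
    have h3 : (3 : ZMod 7) ≠ 0 := Pool.Agent.Z700.BIL2B.three_ne
    apply mul_left_cancel₀ h3
    have e8 : (3 : ZMod 7) * (b1 : ZMod 7) = 4 * ((3 * m1 : ℕ) : ZMod 7) -
        s * ((9 * c : ℤ) : ZMod 7) := by
      have := congrArg (Int.cast : ℤ → ZMod 7) e1
      push_cast at this ⊢
      linear_combination this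
    have hn := bt_sq t1
    have hn' : ((3 * m1 : ℕ) : ZMod 7) = -β1 ^ 2 := by rw [hn]; ring
    rw [e8, hb7, hn']
    linear_combination (β1) * hκ

open Classical in
/-- CAN -/
theorem t_CAN (h : Pool.Agent.Z700.S_PC) : Pool.Agent.Z705.S_CAN := by
  intro m1 m2 β1 β2 hOK b hb4 hb3 h12
  obtain ⟨g1, g2, t1, t2, -, -, hd, hne⟩ := hOK
  have p1 := g1.2.2.1
  have p2 := g2.2.2.1
  have h12' : (3 : ℤ) ∣ (m1 : ℤ) + m2 := by omega
  unfold DD Pool.Agent.Z700.DD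
  by_cases hb : (b : ZMod 7) = -(β1 * β2)
  swap
  · have key := core0 (N1 := 3 * (m1 : ℤ)) (N2 := 3 * (m2 : ℤ)) (bt_ne g1 t1) hb
    have : ∑ q ∈ (vec (3 * (m1 : ℤ)) ×ˢ vec (3 * (m2 : ℤ))).filter (fun q => q.1 ⬝ᵥ q.2 = b ∧
        ∃ n : Fin 3 → ZMod 7, n ≠ 0 ∧ Ln n (β1) q.1 ∧ Ln n (β2) q.2), chv q.1 * chv q.2 = 0 := by
      rw [key]
      rfl
    exact this
  have hsg : ∀ q ∈ (vec (3 * (m1 : ℤ)) ×ˢ vec (3 * (m2 : ℤ))).filter
      (fun q => q.1 ⬝ᵥ q.2 = b), (chv q.1 * chv q.2 = 1 ∨ chv q.1 * chv q.2 = -1) ∧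
      ∀ σ : ℤ, (σ = 1 ∨ σ = -1) →
      (chv q.1 * chv q.2 = σ ↔ ∀ i, (3 : ℤ) ∣ q.1 i - σ * q.2 i) := by
    intro q hq
    rw [mem_filter, mem_product] at hq
    exact sign3 (by omega) (by omega) hb3 (mem_vec hq.1.1) (mem_vec hq.1.2) hq.2
  have key := core (N1 := 3 * (m1 : ℤ)) (N2 := 3 * (m2 : ℤ)) (bt_ne g1 t1) (bt_ne g2 t2)
    (by rw [bt_sq t1]; push_cast; ring) (by rw [bt_sq t2]; push_cast; ring) hb
    (fun q => chv q.1 * chv q.2) (fun v w => by simp only [chv_neg]; ring)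
  have hn9 : ∀ q ∈ (vec (3 * (m1 : ℤ)) ×ˢ vec (3 * (m2 : ℤ))).filter
      (fun q => q.1 ⬝ᵥ q.2 = b), (9 : ℤ) ∣ b := by
    intro q hq
    obtain ⟨q1, q2⟩ := hsg q hq
    rw [mem_filter, mem_product] at hq
    obtain ⟨σ, hσ, hq3⟩ : ∃ σ : ℤ, (σ = 1 ∨ σ = -1) ∧ ∀ i, (3 : ℤ) ∣ q.1 i - σ * q.2 i := by
      rcases q1 with q1 | q1
      · exact ⟨1, Or.inl rfl, (q2 1 (Or.inl rfl)).1 q1⟩
      · exact ⟨-1, Or.inr rfl, (q2 (-1) (Or.inr rfl)).1 q1⟩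
    choose u hu using hq3
    have n1 := mem_vec hq.1.1
    have n2 := mem_vec hq.1.2
    have n3 := hq.2
    rw [dot3] at n1 n2 n3
    -- the norm of v - σ w
    have e3 : 9 * (u 0 * u 0 + u 1 * u 1 + u 2 * u 2) = 3 * (m1 : ℤ) - 2 * (σ * b) +
        σ * σ * (3 * (m2 : ℤ)) := by
      rw [← n1, ← n2, ← n3]
      linear_combination (-(3 * u 0) - (q.1 0 - σ * q.2 0)) * hu 0 +
        (-(3 * u 1) - (q.1 1 - σ * q.2 1)) * hu 1 + (-(3 * u 2) - (q.1 2 - σ * q.2 2)) * hu 2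
    obtain ⟨z, hz⟩ : ∃ z, u 0 * u 0 + u 1 * u 1 + u 2 * u 2 = z := ⟨_, rfl⟩
    rw [hz] at e3
    rcases hσ with rfl | rfl <;> omega
  have k1 : ∑ q ∈ (vec (3 * (m1 : ℤ)) ×ˢ vec (3 * (m2 : ℤ))).filter
      (fun q => q.1 ⬝ᵥ q.2 = b), chv q.1 * chv q.2 = 0 := by
    by_cases h9 : (9 : ℤ) ∣ b
    · rw [sum_sign _ (fun q => chv q.1 * chv q.2) (fun q hq => (hsg q hq).1)]
      have e : ∀ σ : ℤ, (σ = 1 ∨ σ = -1) →
          (((vec (3 * (m1 : ℤ)) ×ˢ vec (3 * (m2 : ℤ))).filter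
          (fun q => q.1 ⬝ᵥ q.2 = b)).filter fun q => chv q.1 * chv q.2 = σ) =
          (vec (3 * (m1 : ℤ)) ×ˢ vec (3 * (m2 : ℤ))).filter fun q => q.1 ⬝ᵥ q.2 = b ∧
            (∀ i, (3 : ℤ) ∣ q.1 i - σ * q.2 i) ∧ True := by
        intro σ hσ
        rw [← filter_filter]
        refine filter_congr fun q hq => ?_
        rw [(hsg q hq).2 σ hσ, and_true]
      rw [e 1 (Or.inl rfl), e (-1) (Or.inr rfl)]
      have c1 := (counts h m1 m2 β1 β2 g1 g2 t1 b hb4 h9 h12' hb 1 (Or.inl rfl)).1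
      have c2 := (counts h m1 m2 β1 β2 g1 g2 t1 b hb4 h9 h12' hb (-1) (Or.inr rfl)).1
      rw [sub_eq_zero]
      convert c1.trans c2.symm using 3
    · exact Finset.sum_eq_zero fun q hq => absurd (hn9 q hq) h9
  have k2 : ∑ q ∈ (vec (3 * (m1 : ℤ)) ×ˢ vec (3 * (m2 : ℤ))).filter
      (fun q => q.1 ⬝ᵥ q.2 = b ∧ ∀ i, β2 * (q.1 i : ZMod 7) = β1 * (q.2 i : ZMod 7)),
      chv q.1 * chv q.2 = 0 := by
    have hsub : ∀ q ∈ (vec (3 * (m1 : ℤ)) ×ˢ vec (3 * (m2 : ℤ))).filter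
      (fun q => q.1 ⬝ᵥ q.2 = b ∧ ∀ i, β2 * (q.1 i : ZMod 7) = β1 * (q.2 i : ZMod 7)),
      q ∈ (vec (3 * (m1 : ℤ)) ×ˢ vec (3 * (m2 : ℤ))).filter (fun q => q.1 ⬝ᵥ q.2 = b) := by
      intro q hq
      rw [mem_filter] at hq ⊢
      exact ⟨hq.1, hq.2.1⟩
    by_cases h9 : (9 : ℤ) ∣ b
    · rw [sum_sign _ (fun q => chv q.1 * chv q.2) (fun q hq => (hsg q (hsub q hq)).1)]
      have e : ∀ σ : ℤ, (σ = 1 ∨ σ = -1) →
          (((vec (3 * (m1 : ℤ)) ×ˢ vec (3 * (m2 : ℤ))).filter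
          (fun q => q.1 ⬝ᵥ q.2 = b ∧ ∀ i, β2 * (q.1 i : ZMod 7) =
            β1 * (q.2 i : ZMod 7))).filter fun q => chv q.1 * chv q.2 = σ) =
          (vec (3 * (m1 : ℤ)) ×ˢ vec (3 * (m2 : ℤ))).filter fun q => q.1 ⬝ᵥ q.2 = b ∧
            (∀ i, (3 : ℤ) ∣ q.1 i - σ * q.2 i) ∧
            ∀ i, β2 * (q.1 i : ZMod 7) = β1 * (q.2 i : ZMod 7) := by
        intro σ hσ
        ext q
        constructor
        · intro hq
          rw [mem_filter] at hq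
          have hq1 := hsub q hq.1
          have hq2 := ((hsg q hq1).2 σ hσ).1 hq.2
          have hq3 := (mem_filter.1 hq.1)
          rw [mem_filter]
          exact ⟨hq3.1, hq3.2.1, hq2, hq3.2.2⟩
        · intro hq
          rw [mem_filter] at hq
          rw [mem_filter, mem_filter]
          refine ⟨⟨hq.1, hq.2.1, hq.2.2.2⟩, ?_⟩
          exact ((hsg q (by rw [mem_filter]; exact ⟨hq.1, hq.2.1⟩)).2 σ hσ).2 hq.2.2.1
      rw [e 1 (Or.inl rfl), e (-1) (Or.inr rfl)]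
      have c1 := (counts h m1 m2 β1 β2 g1 g2 t1 b hb4 h9 h12' hb 1 (Or.inl rfl)).2
      have c2 := (counts h m1 m2 β1 β2 g1 g2 t1 b hb4 h9 h12' hb (-1) (Or.inr rfl)).2
      rw [sub_eq_zero]
      convert c1.trans c2.symm using 3
    · exact Finset.sum_eq_zero fun q hq => absurd (hn9 q (hsub q hq)) h9
  rw [k1, k2] at key
  have : ∑ q ∈ (vec (3 * (m1 : ℤ)) ×ˢ vec (3 * (m2 : ℤ))).filter (fun q => q.1 ⬝ᵥ q.2 = b ∧
        ∃ n : Fin 3 → ZMod 7, n ≠ 0 ∧ Ln n (β1) q.1 ∧ Ln n (β2) q.2), chv q.1 * chv q.2 = 0 := by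
    linarith
  exact this

end Pool.Agent.Y394.Z705
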